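import Pool.Agent.H77.GR.Stm

set_option autoImplicit false

/-! Project GR (helper77), module PAT (helper91): the intersection pattern of a good reduction. -/

namespace Pool.Agent.H91.GR

open Pool.Agent.H77.TF Pool.Agent.H77.GR

/-- A vector is in the span of two independent ones iff the determinant is zero. -/
theorem mem_span_iff_det {K : Type} [Field K] {x y z : Fin 3 → K} (hy : y ≠ 0)
    (hxy : ∀ c : K, x ≠ c • y) :
    z ∈ Submodule.span K {x, y} ↔ (Matrix.of ![x, y, z]).det = 0 := by
  rw [Submodule.mem_span_pair, ← Matrix.exists_vecMul_eq_zero_iff]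
  constructor
  · rintro ⟨a, b, rfl⟩
    refine ⟨![a, b, -1], fun h => ?_, ?_⟩
    · have := congrFun h 2
      simp at this
    · ext j
      simp [Matrix.vecMul, dotProduct, Fin.sum_univ_three]
  · rintro ⟨v, hv, h⟩
    have h1 : ∀ j, v 0 * x j + v 1 * y j + v 2 * z j = 0 := by
      intro j
      have := congrFun h j
      simpa [Matrix.vecMul, dotProduct, Fin.sum_univ_three] using this
    have h2 : v 2 ≠ 0 := by
      intro h2
      have h3 : v 0 = 0 := by
        by_contra h3
        refine hxy (-(v 1 / v 0)) ?_
        ext j
        have := h1 j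
        rw [h2, zero_mul, add_zero] at this
        simp only [Pi.smul_apply, smul_eq_mul]
        field_simp
        linear_combination this
      have h4 : v 1 = 0 := by
        by_contra h4
        refine hy ?_
        ext j
        have := h1 j
        rw [h2, h3, zero_mul, zero_mul, zero_add, add_zero] at this
        simpa [h4] using this
      refine hv ?_
      ext j
      fin_cases j
      · exact h3
      · exact h4
      · exact h2
    refine ⟨-(v 0 / v 2), -(v 1 / v 2), ?_⟩
    ext j
    have := h1 j
    simp only [Pi.add_apply, Pi.smul_apply, smul_eq_mul]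
    field_simp
    linear_combination -this

theorem minors_of {K : Type} [Field K] {x y : Fin 3 → K} {c : K} (h : x = c • y) (p q : Fin 3) :
    x p * y q = x q * y p := by
  rw [h]
  simp only [Pi.smul_apply, smul_eq_mul]
  ring

theorem of_minors {K : Type} [Field K] {x y : Fin 3 → K} (hy : y ≠ 0)
    (h : ∀ p q, x p * y q = x q * y p) : ∃ c : K, x = c • y := by
  obtain ⟨q, hq⟩ : ∃ q, y q ≠ 0 := by
    by_contra h1
    push Not at h1
    exact hy (funext h1)
  refine ⟨x q / y q, ?_⟩
  ext p
  simp only [Pi.smul_apply, smul_eq_mul]
  have := h p q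
  field_simp
  linear_combination this

theorem mem_span_self_iff {K : Type} [Field K] {ν : Type} {B : ν → Fin 3 → K} (hB : Simple B)
    (i l : ν) : B l ∈ Submodule.span K {B i, B i} ↔ l = i := by
  rw [Set.pair_eq_singleton, Submodule.mem_span_singleton]
  constructor
  · rintro ⟨c, hc⟩
    by_contra h
    exact hB.2 l i h c hc.symm
  · rintro rfl
    exact ⟨1, one_smul _ _⟩

theorem det_mapA {R R' : Type} [CommRing R] [CommRing R'] (f : R →+* R') {ν : Type}
    (A : ν → Fin 3 → R) (i j l : ν) :
    (Matrix.of ![mapA f A i, mapA f A j, mapA f A l]).det =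
      f (Matrix.of ![A i, A j, A l]).det := by
  rw [Matrix.det_fin_three, Matrix.det_fin_three]
  simp [mapA]

/-- PAT -/
theorem pat : S_PAT := by
  intro R _ _ _ F _ _ _ ν A hA
  obtain ⟨hS, hG⟩ := hA
  have hinj : Function.Injective (algebraMap R F) := IsFractionRing.injective R F
  have hSF : Simple (mapA (algebraMap R F) A) := by
    constructor
    · intro i h
      refine hS.1 i ?_
      ext j
      have h1 : algebraMap R F (A i j) = 0 := congrFun h j
      have h2 : A i j = 0 := (map_eq_zero_iff _ hinj).1 h1
      simp [mapA, h2]
    · intro i j hij c hc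
      have h1 : ∀ p q, A i p * A j q = A i q * A j p := by
        intro p q
        apply hinj
        have := minors_of hc p q
        simpa [mapA] using this
      obtain ⟨c', hc'⟩ := of_minors (x := mapA (IsLocalRing.residue R) A i)
        (y := mapA (IsLocalRing.residue R) A j) (hS.1 j) (fun p q => by
          have := congrArg (IsLocalRing.residue R) (h1 p q)
          simpa [mapA] using this)
      exact hS.2 i j hij c' hc'
  refine ⟨hSF, fun i j l => ?_⟩
  rcases eq_or_ne i j with rfl | hij
  · rw [mem_span_self_iff hSF, mem_span_self_iff hS]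
  · rw [mem_span_iff_det (hSF.1 j) (hSF.2 i j hij), mem_span_iff_det (hS.1 j) (hS.2 i j hij),
      det_mapA, det_mapA, map_eq_zero_iff _ hinj]
    constructor
    · intro h
      rw [h, map_zero]
    · intro h
      exact hG i j l ((IsLocalRing.residue_eq_zero_iff _).1 h)

end Pool.Agent.H91.GR
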